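import Pool.Agent.helper94.EU.SpecII

set_option autoImplicit false

open Finset

namespace Pool.Agent.EU

open Pool.Agent.FI Pool.Agent.FJ

/-- `log (cosh δ - τ sinh δ)` -/
noncomputable def LIP_F (δ τ : ℝ) : ℝ := Real.log (Real.cosh δ - τ * Real.sinh δ)

theorem LIP_sinh (δ δ' : ℝ) (h : |δ| ≤ 3) (h' : |δ'| ≤ 3) :
    |Real.sinh δ - Real.sinh δ'| ≤ Real.cosh 3 * |δ - δ'| := by
  have h1 := Convex.norm_image_sub_le_of_norm_deriv_le (f := Real.sinh) (C := Real.cosh 3) (s := Set.Icc (-3 : ℝ) 3)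
    (x := δ') (y := δ) (fun x _ => Real.differentiable_sinh x) (by
      intro x hx
      rw [Real.deriv_sinh, Real.norm_eq_abs, abs_of_pos (Real.cosh_pos x), Real.cosh_le_cosh, abs_of_pos (by norm_num : (0 : ℝ) < 3)]
      exact abs_le.mpr hx) (convex_Icc _ _) (abs_le.mp h') (abs_le.mp h)
  rwa [Real.norm_eq_abs, Real.norm_eq_abs] at h1

theorem LIP_sinh0 (U δ : ℝ) (h : |δ| ≤ 3) (hU : |δ| ≤ 4 * U) : |Real.sinh δ| ≤ 4 * Real.cosh 3 * U := by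
  have h1 := LIP_sinh δ 0 h (by norm_num)
  rw [Real.sinh_zero, sub_zero, sub_zero] at h1
  have h2 : 0 < Real.cosh 3 := Real.cosh_pos 3
  nlinarith

theorem LIP_cosh (U δ δ' : ℝ) (h : |δ| ≤ 3) (h' : |δ'| ≤ 3) (hU : |δ| ≤ 4 * U) (hU' : |δ'| ≤ 4 * U) :
    |Real.cosh δ - Real.cosh δ'| ≤ 4 * Real.cosh 3 * U * |δ - δ'| := by
  have h1 := Convex.norm_image_sub_le_of_norm_deriv_le (f := Real.cosh) (C := 4 * Real.cosh 3 * U)
    (s := Set.Icc (-(min 3 (4 * U)) : ℝ) (min 3 (4 * U)))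
    (x := δ') (y := δ) (fun x _ => Real.differentiable_cosh x) (by
      intro x hx
      rw [Real.deriv_cosh, Real.norm_eq_abs]
      have h2 := abs_le.mpr hx
      exact LIP_sinh0 U x (h2.trans (min_le_left _ _)) (h2.trans (min_le_right _ _))) (convex_Icc _ _)
    (abs_le.mp (le_min h' hU')) (abs_le.mp (le_min h hU))
  rwa [Real.norm_eq_abs, Real.norm_eq_abs] at h1

theorem LIP_pos (δ τ : ℝ) (hτ : |τ| ≤ 1 / 2) : 1 / 2 ≤ Real.cosh δ - τ * Real.sinh δ := by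
  have h1 : |Real.sinh δ| ≤ Real.cosh δ := by
    rw [abs_le]
    have h2 := Real.cosh_add_sinh δ
    have h3 := Real.cosh_sub_sinh δ
    have h4 := Real.exp_pos δ
    have h5 := Real.exp_pos (-δ)
    constructor <;> linarith
  have h2 : |τ * Real.sinh δ| ≤ 1 / 2 * Real.cosh δ := by
    rw [abs_mul]
    exact mul_le_mul hτ h1 (abs_nonneg _) (by norm_num)
  have h3 := Real.one_le_cosh δ
  have h4 := le_abs_self (τ * Real.sinh δ)
  linarith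

theorem LIP_log (a b : ℝ) (ha : 1 / 2 ≤ a) (hb : 1 / 2 ≤ b) : |Real.log a - Real.log b| ≤ 2 * |a - b| := by
  have key : ∀ a b : ℝ, 1 / 2 ≤ a → 1 / 2 ≤ b → Real.log a - Real.log b ≤ 2 * |a - b| := by
    intro a b ha hb
    have ha0 : 0 < a := by linarith
    have hb0 : 0 < b := by linarith
    rw [← Real.log_div ha0.ne' hb0.ne']
    have h1 := Real.log_le_sub_one_of_pos (div_pos ha0 hb0)
    have h2 : a / b - 1 = (a - b) / b := by field_simp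
    rw [h2] at h1
    refine h1.trans ?_
    rw [div_le_iff₀ hb0]
    have h3 := le_abs_self (a - b)
    have h4 := abs_nonneg (a - b)
    nlinarith
  rw [abs_le]
  constructor
  · have h1 := key b a hb ha
    rw [abs_sub_comm] at h1
    linarith
  · exact key a b ha hb

theorem LIP_main (U δ δ' τ τ' : ℝ) (hU0 : 0 < U) (hU1 : U ≤ 1) (h : |δ| ≤ 3) (h' : |δ'| ≤ 3) (hU : |δ| ≤ 4 * U)
    (hU' : |δ'| ≤ 4 * U) (hτ : |τ| ≤ U / 2) (hτ' : |τ'| ≤ U / 2) :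
    |LIP_F δ τ - LIP_F δ' τ'| ≤ 9 * Real.cosh 3 * U * (|δ - δ'| + |τ - τ'|) := by
  unfold LIP_F
  have h1 := LIP_log _ _ (LIP_pos δ τ (by linarith)) (LIP_pos δ' τ' (by linarith))
  refine h1.trans ?_
  have hM : 0 < Real.cosh 3 := Real.cosh_pos 3
  have h2 : |Real.cosh δ - τ * Real.sinh δ - (Real.cosh δ' - τ' * Real.sinh δ')| ≤
      |Real.cosh δ - Real.cosh δ'| + (|τ| * |Real.sinh δ - Real.sinh δ'| + |τ - τ'| * |Real.sinh δ'|) := by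
    rw [← abs_mul, ← abs_mul]
    have e1 : Real.cosh δ - τ * Real.sinh δ - (Real.cosh δ' - τ' * Real.sinh δ') =
        (Real.cosh δ - Real.cosh δ') - (τ * (Real.sinh δ - Real.sinh δ') + (τ - τ') * Real.sinh δ') := by ring
    rw [e1]
    refine (abs_sub _ _).trans ?_
    have h3 := abs_add_le (τ * (Real.sinh δ - Real.sinh δ')) ((τ - τ') * Real.sinh δ')
    linarith
  have h3 := LIP_cosh U δ δ' h h' hU hU'
  have h4 : |τ| * |Real.sinh δ - Real.sinh δ'| ≤ U / 2 * (Real.cosh 3 * |δ - δ'|) :=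
    mul_le_mul hτ (LIP_sinh δ δ' h h') (abs_nonneg _) (by linarith)
  have h5 : |τ - τ'| * |Real.sinh δ'| ≤ |τ - τ'| * (4 * Real.cosh 3 * U) :=
    mul_le_mul_of_nonneg_left (LIP_sinh0 U δ' h' hU') (abs_nonneg _)
  have h6 : 0 ≤ Real.cosh 3 * U * |τ - τ'| := by positivity
  nlinarith

theorem LIP_zero (U δ τ : ℝ) (hU0 : 0 < U) (hU1 : U ≤ 1) (h : |δ| ≤ 3) (hU : |δ| ≤ 4 * U) (hτ : |τ| ≤ U / 2) :
    |LIP_F δ τ| ≤ 45 * Real.cosh 3 * U ^ 2 := by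
  have h1 := LIP_main U δ 0 τ 0 hU0 hU1 h (by norm_num) hU (by rw [abs_zero]; linarith) hτ (by rw [abs_zero]; linarith)
  have h2 : LIP_F 0 0 = 0 := by
    unfold LIP_F
    rw [Real.cosh_zero]
    simp
  rw [h2, sub_zero, sub_zero, sub_zero] at h1
  have hM : 0 < Real.cosh 3 := Real.cosh_pos 3
  refine h1.trans ?_
  have h3 : |δ| + |τ| ≤ 5 * U := by linarith
  calc 9 * Real.cosh 3 * U * (|δ| + |τ|) ≤ 9 * Real.cosh 3 * U * (5 * U) := mul_le_mul_of_nonneg_left h3 (by positivity)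
    _ = _ := by ring

theorem LIP_f1 (δ τ : ℝ) : Real.log (Real.cosh δ - τ * Real.sinh δ) = LIP_F δ τ := rfl

theorem LIP_f2 (δ τ : ℝ) : Real.log (Real.cosh δ + τ * Real.sinh δ) = LIP_F δ (-τ) := by
  unfold LIP_F
  congr 1
  ring

theorem LIP_f3 (δ : ℝ) : Real.log (Real.cosh δ) = LIP_F δ 0 := by
  unfold LIP_F
  rw [zero_mul, sub_zero]

theorem LIP : LIP_stmt := by
  have hM : 0 < Real.cosh 3 := Real.cosh_pos 3
  refine ⟨45 * Real.cosh 3, by positivity, ?_⟩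
  intro U hU0 hU1 δ δ' τ₁ τ₁' τ₂ τ₂' hs hU hU' h h' a1 b1 a1' b1' a2 b2 a2' b2'
  have t1 : |τ₁| ≤ U / 2 := by rwa [abs_of_nonneg a1]
  have t1' : |τ₁'| ≤ U / 2 := by rwa [abs_of_nonneg a1']
  have t2 : |(-τ₂)| ≤ U / 2 := by rwa [abs_neg, abs_of_nonneg a2]
  have t2' : |(-τ₂')| ≤ U / 2 := by rwa [abs_neg, abs_of_nonneg a2']
  have t0 : |(0 : ℝ)| ≤ U / 2 := by rw [abs_zero]; linarith
  have m1 := LIP_main U δ δ' τ₁ τ₁' hU0 hU1 h h' hU hU' t1 t1'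
  have m2 := LIP_main U δ δ' (-τ₂) (-τ₂') hU0 hU1 h h' hU hU' t2 t2'
  have m0 := LIP_main U δ δ' 0 0 hU0 hU1 h h' hU hU' t0 t0
  have e2 : |(-τ₂) - (-τ₂')| = |τ₂ - τ₂'| := by
    rw [show (-τ₂) - (-τ₂') = -(τ₂ - τ₂') by ring, abs_neg]
  rw [e2] at m2
  rw [sub_zero, abs_zero, add_zero] at m0
  have z1 := LIP_zero U δ τ₁ hU0 hU1 h hU t1
  have z2 := LIP_zero U δ (-τ₂) hU0 hU1 h hU t2
  have z0 := LIP_zero U δ 0 hU0 hU1 h hU t0
  set M := Real.cosh 3 with hMd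
  have p0 : 0 ≤ M * U * |δ - δ'| := by positivity
  have p1 : 0 ≤ M * U * |τ₁ - τ₁'| := by positivity
  have p2 : 0 ≤ M * U * |τ₂ - τ₂'| := by positivity
  have B1 : |LIP_F δ τ₁ - LIP_F δ' τ₁'| ≤ 45 * M * U * (|δ - δ'| + |τ₁ - τ₁'| + |τ₂ - τ₂'|) := by nlinarith
  have B2 : |-LIP_F δ (-τ₂) - -LIP_F δ' (-τ₂')| ≤ 45 * M * U * (|δ - δ'| + |τ₁ - τ₁'| + |τ₂ - τ₂'|) := by
    rw [show -LIP_F δ (-τ₂) - -LIP_F δ' (-τ₂') = -(LIP_F δ (-τ₂) - LIP_F δ' (-τ₂')) by ring, abs_neg]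
    nlinarith
  have B0 : |LIP_F δ 0 - LIP_F δ' 0| ≤ 45 * M * U * (|δ - δ'| + |τ₁ - τ₁'| + |τ₂ - τ₂'|) := by nlinarith
  have B0' : |-LIP_F δ 0 - -LIP_F δ' 0| ≤ 45 * M * U * (|δ - δ'| + |τ₁ - τ₁'| + |τ₂ - τ₂'|) := by
    rw [show -LIP_F δ 0 - -LIP_F δ' 0 = -(LIP_F δ 0 - LIP_F δ' 0) by ring, abs_neg]
    exact B0
  have z2' : |-LIP_F δ (-τ₂)| ≤ 45 * M * U ^ 2 := by rwa [abs_neg]
  have z0' : |-LIP_F δ 0| ≤ 45 * M * U ^ 2 := by rwa [abs_neg]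
  unfold loE hiE
  rw [LIP_f1, LIP_f2, LIP_f3, LIP_f1, LIP_f2, LIP_f3]
  by_cases hd : 0 < δ
  · have hd' : 0 < δ' := by
      by_contra hc
      push Not at hc
      nlinarith
    rw [if_pos hd, if_pos hd', if_pos hd, if_pos hd']
    refine ⟨?_, B0', ?_, z0'⟩
    · exact (abs_max_sub_max_le_max _ _ _ _).trans (max_le B1 B2)
    · exact abs_max_le_max_abs_abs.trans (max_le z1 z2')
  · have hd' : ¬ 0 < δ' := by
      intro hc
      push Not at hd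
      nlinarith
    rw [if_neg hd, if_neg hd', if_neg hd, if_neg hd']
    refine ⟨B0, ?_, z0, ?_⟩
    · exact (abs_min_sub_min_le_max _ _ _ _).trans (max_le B1 B2)
    · exact abs_min_le_max_abs_abs.trans (max_le z1 z2')

end Pool.Agent.EU
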