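import Pool.Agent.helper52.EU.SpecW

set_option autoImplicit false

open Finset

namespace Pool.Agent.EU

open Pool.Agent.FI Pool.Agent.HK Pool.Agent.BP
open Pool.Agent.CH (nit)

theorem WBE_lep : 0 < lep := by
  unfold lep
  apply Real.log_pos
  have : 0 ≤ √(8 : ℝ) := Real.sqrt_nonneg 8
  linarith

/-- the exponentials -/
noncomputable def WBE_e (κ u : ℝ) : ℂ := Complex.exp (((κ * u : ℝ) : ℂ) * Complex.I)

theorem WBE_e_norm (κ u : ℝ) : ‖WBE_e κ u‖ = 1 := by
  unfold WBE_e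
  rw [Complex.norm_exp_ofReal_mul_I]

theorem WBE_e_neg (κ u : ℝ) : Complex.exp (-((κ * u : ℝ) : ℂ) * Complex.I) = WBE_e (-κ) u := by
  unfold WBE_e
  congr 1
  push_cast
  ring

theorem WBE_e_star (κ u : ℝ) : (starRingEnd ℂ) (WBE_e κ u) = WBE_e (-κ) u := by
  unfold WBE_e
  rw [← Complex.exp_conj, map_mul, Complex.conj_I, Complex.conj_ofReal]
  congr 1
  push_cast
  ring

theorem WBE_e_add (κ κ' u : ℝ) : WBE_e κ u * WBE_e κ' u = WBE_e (κ + κ') u := by
  unfold WBE_e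
  rw [← Complex.exp_add]
  congr 1
  push_cast
  ring

theorem WBE_e_cont (κ : ℝ) : Continuous (WBE_e κ) := by
  unfold WBE_e
  fun_prop

theorem WBE_int (κ a b : ℝ) (hκ : κ ≠ 0) : ∫ u in a..b, WBE_e κ u = (WBE_e κ b - WBE_e κ a) / (κ * Complex.I) := by
  have hc : ((κ : ℂ) * Complex.I) ≠ 0 := mul_ne_zero (by exact_mod_cast hκ) Complex.I_ne_zero
  have h1 := integral_exp_mul_complex (a := a) (b := b) hc
  have h2 : ∀ u : ℝ, WBE_e κ u = Complex.exp ((κ : ℂ) * Complex.I * u) := by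
    intro u
    unfold WBE_e
    congr 1
    push_cast
    ring
  simp only [h2]
  exact h1

theorem WBE_orth (α : ℝ) (m m' : ℤ) : ∫ u in (-lep)..lep, WBE_e (fr α m' - fr α m) u =
    if m = m' then ((2 * lep : ℝ) : ℂ) else 0 := by
  have hl := WBE_lep
  by_cases h : m = m'
  · subst h
    rw [if_pos rfl, sub_self]
    have h1 : ∀ u : ℝ, WBE_e 0 u = 1 := by
      intro u
      unfold WBE_e
      simp
    simp only [h1]
    rw [intervalIntegral.integral_const]
    simp only [Complex.real_smul, mul_one]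
    congr 1
    ring
  · rw [if_neg h]
    have h1 : fr α m' - fr α m = Real.pi * ((m' - m : ℤ) : ℝ) / lep := by
      unfold fr
      push_cast
      field_simp
      ring
    have h2 : ((m' - m : ℤ) : ℝ) ≠ 0 := by
      have : m' - m ≠ 0 := fun h3 => h (by omega)
      exact_mod_cast this
    rw [h1, WBE_int _ _ _ (div_ne_zero (mul_ne_zero Real.pi_ne_zero h2) hl.ne')]
    have h3 : WBE_e (Real.pi * ((m' - m : ℤ) : ℝ) / lep) lep = WBE_e (Real.pi * ((m' - m : ℤ) : ℝ) / lep) (-lep) := by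
      unfold WBE_e
      rw [Complex.exp_eq_exp_iff_exists_int]
      refine ⟨m' - m, ?_⟩
      have e1 : Real.pi * ((m' - m : ℤ) : ℝ) / lep * lep = Real.pi * ((m' - m : ℤ) : ℝ) := by
        field_simp
      have e2 : Real.pi * ((m' - m : ℤ) : ℝ) / lep * (-lep) = -(Real.pi * ((m' - m : ℤ) : ℝ)) := by
        field_simp
      rw [e1, e2]
      push_cast
      ring
    rw [h3, sub_self, zero_div]

open MeasureTheory in
/-- Bessel -/
theorem WBE_bes (G : ℝ → ℂ) (hG : Measurable G) (B : ℝ) (hB : ∀ u, ‖G u‖ ≤ B) (α : ℝ) (F : Finset ℤ) :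
    ∑ m ∈ F, ‖∫ u in (-lep)..lep, G u * WBE_e (-fr α m) u‖ ^ 2 ≤ 2 * lep * ∫ u in (-lep)..lep, ‖G u‖ ^ 2 := by
  have hl := WBE_lep
  have hle : -lep ≤ lep := by linarith
  set μ : Measure ℝ := volume.restrict (Set.Ioc (-lep) lep) with hμ
  have hfin : IsFiniteMeasure μ := by
    rw [hμ]
    exact ⟨by rw [Measure.restrict_apply_univ]; exact measure_Ioc_lt_top⟩
  set T : ℝ := 2 * lep with hT
  have hT0 : 0 < T := by rw [hT]; linarith
  have hsT : 0 < √T := Real.sqrt_pos.mpr hT0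
  have hGL : MemLp G 2 μ := MemLp.of_bound hG.aestronglyMeasurable B (Filter.Eventually.of_forall hB)
  have hv : ∀ m : ℤ, MemLp (fun u => WBE_e (fr α m) u * (((√T)⁻¹ : ℝ) : ℂ)) 2 μ := by
    intro m
    have hcont : Continuous (fun u => WBE_e (fr α m) u * (((√T)⁻¹ : ℝ) : ℂ)) := (WBE_e_cont _).mul continuous_const
    apply MemLp.of_bound hcont.aestronglyMeasurable ((√T)⁻¹)
    refine Filter.Eventually.of_forall fun u => ?_
    rw [norm_mul, WBE_e_norm, one_mul, Complex.norm_real, Real.norm_eq_abs, abs_of_pos (by positivity)]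
  set v : ℤ → Lp ℂ 2 μ := fun m => (hv m).toLp with hvd
  set X : Lp ℂ 2 μ := hGL.toLp with hX
  have hin : ∀ (f g : ℝ → ℂ) (hf : MemLp f 2 μ) (hg : MemLp g 2 μ),
      inner ℂ (hf.toLp : Lp ℂ 2 μ) (hg.toLp : Lp ℂ 2 μ) = ∫ u in (-lep)..lep, g u * (starRingEnd ℂ) (f u) := by
    intro f g hf hg
    rw [MeasureTheory.L2.inner_def, intervalIntegral.integral_of_le hle]
    apply integral_congr_ae
    filter_upwards [hf.coeFn_toLp, hg.coeFn_toLp] with u h1 h2
    rw [h1, h2]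
    rfl
  have hvv : ∀ m m' : ℤ, inner ℂ (v m) (v m') = if m = m' then (1 : ℂ) else 0 := by
    intro m m'
    rw [hvd]
    simp only
    rw [hin]
    have h1 : ∀ u : ℝ, WBE_e (fr α m') u * (((√T)⁻¹ : ℝ) : ℂ) * (starRingEnd ℂ) (WBE_e (fr α m) u * (((√T)⁻¹ : ℝ) : ℂ)) =
        WBE_e (fr α m' - fr α m) u * ((T⁻¹ : ℝ) : ℂ) := by
      intro u
      rw [map_mul, WBE_e_star, Complex.conj_ofReal, sub_eq_add_neg, ← WBE_e_add]
      have h2 : ((T⁻¹ : ℝ) : ℂ) = (((√T)⁻¹ : ℝ) : ℂ) * (((√T)⁻¹ : ℝ) : ℂ) := by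
        rw [← Complex.ofReal_mul, ← mul_inv, Real.mul_self_sqrt hT0.le]
      rw [h2]
      ring
    simp only [h1]
    rw [intervalIntegral.integral_mul_const, WBE_orth]
    by_cases h : m = m'
    · rw [if_pos h, if_pos h, ← hT, ← Complex.ofReal_mul, mul_inv_cancel₀ hT0.ne', Complex.ofReal_one]
    · rw [if_neg h, if_neg h, zero_mul]
  have hort : Orthonormal ℂ v := by
    rw [orthonormal_iff_ite]
    exact hvv
  have hbes := hort.sum_inner_products_le X (s := F)
  have h1 : ∀ m : ℤ, ‖inner ℂ (v m) X‖ ^ 2 = T⁻¹ * ‖∫ u in (-lep)..lep, G u * WBE_e (-fr α m) u‖ ^ 2 := by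
    intro m
    rw [hvd, hX]
    simp only
    rw [hin]
    have h2 : ∀ u : ℝ, G u * (starRingEnd ℂ) (WBE_e (fr α m) u * (((√T)⁻¹ : ℝ) : ℂ)) =
        G u * WBE_e (-fr α m) u * (((√T)⁻¹ : ℝ) : ℂ) := by
      intro u
      rw [map_mul, WBE_e_star, Complex.conj_ofReal]
      ring
    simp only [h2]
    rw [intervalIntegral.integral_mul_const, norm_mul, mul_pow, Complex.norm_real, Real.norm_eq_abs,
      abs_of_pos (by positivity), inv_pow, Real.sq_sqrt hT0.le]
    ring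
  have h2 : ‖X‖ ^ 2 = ∫ u in (-lep)..lep, ‖G u‖ ^ 2 := by
    have h3 := inner_self_eq_norm_sq_to_K (𝕜 := ℂ) X
    rw [hX, hin] at h3
    have h4 : ∀ u : ℝ, G u * (starRingEnd ℂ) (G u) = ((‖G u‖ ^ 2 : ℝ) : ℂ) := by
      intro u
      rw [Complex.mul_conj, Complex.normSq_eq_norm_sq]
    simp only [h4] at h3
    rw [intervalIntegral.integral_ofReal] at h3
    have h5 : ((∫ u in (-lep)..lep, ‖G u‖ ^ 2 : ℝ) : ℂ) = ((‖X‖ ^ 2 : ℝ) : ℂ) := by
      rw [h3, hX]
      push_cast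
      rfl
    exact (Complex.ofReal_injective h5).symm
  rw [h2] at hbes
  simp only [h1] at hbes
  rw [← Finset.mul_sum] at hbes
  have h3 : T * (T⁻¹ * ∑ m ∈ F, ‖∫ u in (-lep)..lep, G u * WBE_e (-fr α m) u‖ ^ 2) ≤ T * ∫ u in (-lep)..lep, ‖G u‖ ^ 2 :=
    mul_le_mul_of_nonneg_left hbes hT0.le
  rwa [← mul_assoc, mul_inv_cancel₀ hT0.ne', one_mul] at h3

open MeasureTheory in
theorem WBE_ind (φ : ℝ → ℂ) (a b c d : ℝ) (h1 : a ≤ c) (h2 : c ≤ d) (h3 : d ≤ b) :
    ∫ u in a..b, (Set.Ico c d).indicator φ u = ∫ u in c..d, φ u := by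
  rw [intervalIntegral.integral_of_le (h1.trans (h2.trans h3)), intervalIntegral.integral_of_le h2,
    setIntegral_indicator measurableSet_Ico]
  apply setIntegral_congr_set
  have h4 : (Set.Ioc a b ∩ Set.Ico c d : Set ℝ) =ᵐ[volume] (Set.Ioc a b ∩ Set.Ioc c d : Set ℝ) :=
    Filter.EventuallyEq.rfl.inter Ico_ae_eq_Ioc
  have h5 : Set.Ioc a b ∩ Set.Ioc c d = Set.Ioc c d := by
    rw [Set.inter_eq_right]
    exact Set.Ioc_subset_Ioc h1 h3
  rw [h5] at h4
  exact h4

open MeasureTheory in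
theorem WBE_indint (φ : ℝ → ℂ) (hφ : Continuous φ) (a b c d : ℝ) :
    IntervalIntegrable ((Set.Ico c d).indicator φ) volume a b := by
  rw [intervalIntegrable_iff]
  have h1 : IntegrableOn φ (Set.uIoc a b) volume := intervalIntegrable_iff.mp (hφ.intervalIntegrable a b)
  exact Integrable.indicator h1 measurableSet_Ico

theorem WBE_sh1 (κ Y h : ℝ) : ∫ u in (Y - h)..Y, WBE_e (-κ) u = WBE_e (-κ) Y * ∫ u in (0 : ℝ)..h, WBE_e κ u := by
  have h1 := intervalIntegral.integral_comp_sub_left (WBE_e (-κ)) Y (a := 0) (b := h)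
  rw [sub_zero] at h1
  rw [← h1, ← intervalIntegral.integral_const_mul]
  apply intervalIntegral.integral_congr
  intro u _
  simp only
  unfold WBE_e
  rw [← Complex.exp_add]
  congr 1
  push_cast
  ring

theorem WBE_sh2 (κ Y h : ℝ) : ∫ u in Y..(Y + h), WBE_e (-κ) u = WBE_e (-κ) Y * ∫ u in (0 : ℝ)..h, WBE_e (-κ) u := by
  have h1 := intervalIntegral.integral_comp_add_left (WBE_e (-κ)) Y (a := 0) (b := h)
  rw [add_zero] at h1
  rw [← h1, ← intervalIntegral.integral_const_mul]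
  apply intervalIntegral.integral_congr
  intro u _
  simp only
  unfold WBE_e
  rw [← Complex.exp_add]
  congr 1
  push_cast
  ring

/-- the integral of a step function against the exponential -/
theorem WBE_step (ι : Type) (P : Finset ι) (c d : ι → ℝ) (b : ι → ℂ) (ρ : ℂ) (κ : ℝ)
    (hc : ∀ p ∈ P, -lep ≤ c p ∧ c p ≤ d p ∧ d p ≤ lep) :
    ∫ u in (-lep)..lep, ((∑ p ∈ P, b p * (Set.Ico (c p) (d p)).indicator (fun _ => (1 : ℂ)) u) - ρ) * WBE_e κ u =
      (∑ p ∈ P, b p * ∫ u in (c p)..(d p), WBE_e κ u) - ρ * ∫ u in (-lep)..lep, WBE_e κ u := by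
  have h1 : ∀ u : ℝ, ((∑ p ∈ P, b p * (Set.Ico (c p) (d p)).indicator (fun _ => (1 : ℂ)) u) - ρ) * WBE_e κ u =
      (∑ p ∈ P, b p * (Set.Ico (c p) (d p)).indicator (WBE_e κ) u) - ρ * WBE_e κ u := by
    intro u
    rw [sub_mul, Finset.sum_mul]
    congr 1
    refine Finset.sum_congr rfl fun p _ => ?_
    by_cases hu : u ∈ Set.Ico (c p) (d p)
    · rw [Set.indicator_of_mem hu, Set.indicator_of_mem hu]
      ring
    · rw [Set.indicator_of_notMem hu, Set.indicator_of_notMem hu]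
      ring
  simp only [h1]
  have hi : ∀ p ∈ P, IntervalIntegrable (fun u => b p * (Set.Ico (c p) (d p)).indicator (WBE_e κ) u)
      MeasureTheory.volume (-lep) lep := fun p _ => (WBE_indint _ (WBE_e_cont κ) _ _ _ _).const_mul _
  rw [intervalIntegral.integral_sub, intervalIntegral.integral_finsetSum hi, intervalIntegral.integral_const_mul]
  · congr 1
    refine Finset.sum_congr rfl fun p hp => ?_
    rw [intervalIntegral.integral_const_mul, WBE_ind _ _ _ _ _ (hc p hp).1 (hc p hp).2.1 (hc p hp).2.2]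
  · have h2 := IntervalIntegrable.sum (s := P) hi
    have h3 : (∑ p ∈ P, fun u => b p * (Set.Ico (c p) (d p)).indicator (WBE_e κ) u) =
        fun u => ∑ p ∈ P, b p * (Set.Ico (c p) (d p)).indicator (WBE_e κ) u := by
      funext u
      rw [Finset.sum_apply]
    rwa [h3] at h2
  · exact ((WBE_e_cont κ).intervalIntegrable _ _).const_mul _

theorem WBE_meas (ι : Type) (P : Finset ι) (c d : ι → ℝ) (b : ι → ℂ) (ρ : ℂ) :
    Measurable fun u : ℝ => (∑ p ∈ P, b p * (Set.Ico (c p) (d p)).indicator (fun _ => (1 : ℂ)) u) - ρ := by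
  apply Measurable.sub _ measurable_const
  apply Finset.measurable_sum
  intro p _
  exact (measurable_const.indicator measurableSet_Ico).const_mul _

theorem WBE_bd (ι : Type) (P : Finset ι) (c d : ι → ℝ) (b : ι → ℂ) (ρ : ℂ) (u : ℝ) :
    ‖(∑ p ∈ P, b p * (Set.Ico (c p) (d p)).indicator (fun _ => (1 : ℂ)) u) - ρ‖ ≤ (∑ p ∈ P, ‖b p‖) + ‖ρ‖ := by
  refine (norm_sub_le _ _).trans ?_
  apply add_le_add_left
  refine (norm_sum_le _ _).trans ?_
  apply Finset.sum_le_sum
  intro p _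
  rw [norm_mul]
  apply mul_le_of_le_one_right (norm_nonneg _)
  by_cases hu : u ∈ Set.Ico (c p) (d p)
  · rw [Set.indicator_of_mem hu]
    simp
  · rw [Set.indicator_of_notMem hu]
    simp

theorem WBE_low (κ h : ℝ) (hh : 0 < h) (hκ : |κ| * h ≤ Real.pi) : 2 / Real.pi * h ≤ ‖∫ u in (0 : ℝ)..h, WBE_e κ u‖ := by
  have hpi := Real.pi_pos
  by_cases h0 : κ = 0
  · subst h0
    have h1 : ∀ u : ℝ, WBE_e 0 u = 1 := by
      intro u
      unfold WBE_e
      simp
    simp only [h1]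
    rw [intervalIntegral.integral_const, sub_zero, Complex.real_smul, mul_one, Complex.norm_real, Real.norm_eq_abs,
      abs_of_pos hh]
    have h2 : 2 / Real.pi ≤ 1 := by
      rw [div_le_one hpi]
      exact Real.two_le_pi
    nlinarith
  · rw [WBE_int _ _ _ h0, norm_div, norm_mul, Complex.norm_I, mul_one, Complex.norm_real, Real.norm_eq_abs]
    have hk : 0 < |κ| := abs_pos.mpr h0
    rw [le_div_iff₀ hk]
    have h1 : WBE_e κ h - WBE_e κ 0 = Complex.exp (Complex.I * ((κ * h : ℝ) : ℂ)) - 1 := by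
      unfold WBE_e
      rw [mul_zero, Complex.ofReal_zero, zero_mul, Complex.exp_zero, mul_comm]
    rw [h1, Complex.norm_exp_I_mul_ofReal_sub_one]
    have h2 : ‖2 * Real.sin (κ * h / 2)‖ = 2 * |Real.sin (|κ| * h / 2)| := by
      rw [Real.norm_eq_abs, abs_mul, abs_of_pos (by norm_num : (0 : ℝ) < 2)]
      congr 1
      rcases abs_cases κ with ⟨h3, _⟩ | ⟨h3, _⟩
      · rw [h3]
      · rw [h3, show -κ * h / 2 = -(κ * h / 2) by ring, Real.sin_neg, abs_neg]
    rw [h2]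
    have h3 : 0 ≤ |κ| * h / 2 := by positivity
    have h4 : |κ| * h / 2 ≤ Real.pi / 2 := by linarith
    have h5 := Real.mul_le_sin h3 h4
    have h6 := le_abs_self (Real.sin (|κ| * h / 2))
    calc 2 / Real.pi * h * |κ| = 2 * (2 / Real.pi * (|κ| * h / 2)) := by ring
      _ ≤ 2 * |Real.sin (|κ| * h / 2)| := by linarith

theorem WBE : WBE_stmt := by
  classical
  refine ⟨?_, ?_, ?_⟩
  · intro ι P Y b h ρ α F hh hY
    have hG : ∀ u : ℝ, (∑ p ∈ P with (u < Y p ∧ Y p ≤ u + h), b p - ρ) =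
        (∑ p ∈ P, b p * (Set.Ico (Y p - h) (Y p)).indicator (fun _ => (1 : ℂ)) u) - ρ := by
      intro u
      congr 1
      rw [Finset.sum_filter]
      refine Finset.sum_congr rfl fun p _ => ?_
      by_cases hu : u < Y p ∧ Y p ≤ u + h
      · rw [if_pos hu, Set.indicator_of_mem (Set.mem_Ico.mpr ⟨by linarith [hu.2], hu.1⟩), mul_one]
      · rw [if_neg hu, Set.indicator_of_notMem, mul_zero]
        intro h1
        rw [Set.mem_Ico] at h1
        exact hu ⟨h1.2, by linarith [h1.1]⟩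
    simp only [hG]
    have hb := WBE_bes (fun u => (∑ p ∈ P, b p * (Set.Ico (Y p - h) (Y p)).indicator (fun _ => (1 : ℂ)) u) - ρ)
      (WBE_meas ι P _ _ b ρ) _ (WBE_bd ι P _ _ b ρ) α F
    refine le_trans (le_of_eq ?_) hb
    refine Finset.sum_congr rfl fun m _ => ?_
    have h1 := WBE_step ι P (fun p => Y p - h) Y b ρ (-fr α m) (fun p hp => ⟨by linarith [(hY p hp).1], by linarith, (hY p hp).2⟩)
    beta_reduce at h1 ⊢
    rw [h1]
    simp only [WBE_sh1, WBE_e_neg]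
    congr 2
    congr 1
    rw [Finset.sum_mul]
    refine Finset.sum_congr rfl fun p _ => ?_
    rw [mul_assoc]
    rfl
  · intro ι P Y b h α F hh hY
    have hG : ∀ u : ℝ, (∑ p ∈ P with (Y p ≤ u ∧ u < Y p + h), b p) =
        (∑ p ∈ P, b p * (Set.Ico (Y p) (Y p + h)).indicator (fun _ => (1 : ℂ)) u) - 0 := by
      intro u
      rw [sub_zero, Finset.sum_filter]
      refine Finset.sum_congr rfl fun p _ => ?_
      by_cases hu : Y p ≤ u ∧ u < Y p + h
      · rw [if_pos hu, Set.indicator_of_mem (Set.mem_Ico.mpr hu), mul_one]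
      · rw [if_neg hu, Set.indicator_of_notMem (fun h1 => hu (Set.mem_Ico.mp h1)), mul_zero]
    simp only [hG]
    have hb := WBE_bes (fun u => (∑ p ∈ P, b p * (Set.Ico (Y p) (Y p + h)).indicator (fun _ => (1 : ℂ)) u) - 0)
      (WBE_meas ι P _ _ b 0) _ (WBE_bd ι P _ _ b 0) α F
    refine le_trans (le_of_eq ?_) hb
    refine Finset.sum_congr rfl fun m _ => ?_
    have h1 := WBE_step ι P Y (fun p => Y p + h) b 0 (-fr α m) (fun p hp => ⟨(hY p hp).1, by linarith, by linarith [(hY p hp).2]⟩)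
    beta_reduce at h1 ⊢
    rw [h1, zero_mul, sub_zero]
    simp only [WBE_sh2, WBE_e_neg]
    congr 2
    rw [Finset.sum_mul]
    refine Finset.sum_congr rfl fun p _ => ?_
    rw [mul_assoc]
  · intro κ h hh hκ
    refine ⟨WBE_low κ h hh hκ, ?_⟩
    have h1 := WBE_low (-κ) h hh (by rwa [abs_neg])
    simp only [WBE_e_neg]
    exact h1

end Pool.Agent.EU
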