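import Pool.Agent.helper94.EU.SpecII

set_option autoImplicit false

open Finset

namespace Pool.Agent.EU

open Pool.Agent.FI Pool.Agent.FJ

theorem WND_kk (h θ : ℝ) (z : ℤ × ℤ) (hh : 0 < h) (k : ℤ) :
    kk h θ z = k ↔ θ + k * h < yy z ∧ yy z ≤ θ + k * h + h := by
  unfold kk
  constructor
  · rintro rfl
    have h1 := Int.ceil_lt_add_one ((yy z - θ) / h)
    have h2 := Int.le_ceil ((yy z - θ) / h)
    push_cast
    rw [div_le_iff₀ hh] at h2
    have h3 : ((⌈(yy z - θ) / h⌉ : ℤ) : ℝ) - 1 < (yy z - θ) / h := by linarith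
    rw [lt_div_iff₀ hh] at h3
    constructor
    · nlinarith
    · nlinarith
  · rintro ⟨h1, h2⟩
    have h3 : ⌈(yy z - θ) / h⌉ = k + 1 := by
      rw [Int.ceil_eq_iff]
      push_cast
      constructor
      · rw [lt_div_iff₀ hh]
        nlinarith
      · rw [div_le_iff₀ hh]
        nlinarith
    rw [h3]
    ring

/-- the block of `l` -/
theorem WND_blk (x K : ℕ) (hx : 1 ≤ x) (hK : 1 ≤ K) (l : ℤ) (hl : l ∈ Ioc (x : ℤ) (2 * x)) :
    ∃ b ∈ range K, l ∈ bl x K b ∧ ∀ b' ∈ range K, l ∈ bl x K b' → b' = b := by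
  rw [mem_Ioc] at hl
  obtain ⟨h1, h2⟩ := hl
  have hx0 : (0 : ℤ) < x := by exact_mod_cast hx
  have hK0 : (0 : ℤ) < K := by exact_mod_cast hK
  have hu : 0 < (K : ℤ) * (l - x) := mul_pos hK0 (by linarith)
  have hu2 : (K : ℤ) * (l - x) ≤ K * x := by
    apply mul_le_mul_of_nonneg_left _ hK0.le
    linarith
  set q : ℤ := ((K : ℤ) * (l - x) - 1) / x with hq
  have hq0 : 0 ≤ q := Int.ediv_nonneg (by linarith) hx0.le
  have h3 : q * x ≤ (K : ℤ) * (l - x) - 1 := Int.ediv_mul_le _ hx0.ne'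
  have h4 : (K : ℤ) * (l - x) - 1 < (q + 1) * x := Int.lt_ediv_add_one_mul_self _ hx0
  have hqK : q < K := by
    have h5 : q * x < K * x := by linarith
    exact lt_of_mul_lt_mul_right h5 hx0.le
  have hqn : ((q.toNat : ℕ) : ℤ) = q := Int.toNat_of_nonneg hq0
  refine ⟨q.toNat, ?_, ?_, ?_⟩
  · rw [mem_range]
    omega
  · unfold bl
    rw [mem_filter, mem_Ioc, hqn]
    exact ⟨⟨h1, h2⟩, by linarith, by linarith⟩
  · intro b' _ hb
    unfold bl at hb
    rw [mem_filter] at hb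
    obtain ⟨_, h5, h6⟩ := hb
    have h7 : (b' : ℤ) < q + 1 := by
      have : (b' : ℤ) * x < (q + 1) * x := by linarith
      exact lt_of_mul_lt_mul_right this hx0.le
    have h8 : q < (b' : ℤ) + 1 := by
      have : q * x < ((b' : ℤ) + 1) * x := by linarith
      exact lt_of_mul_lt_mul_right this hx0.le
    omega

theorem WND_sum (x K : ℕ) (hx : 1 ≤ x) (hK : 1 ≤ K) (F : ℤ → ℂ) :
    ∑ b ∈ range K, ∑ l ∈ bl x K b, F l = ∑ l ∈ Ioc (x : ℤ) (2 * x), F l := by
  have h1 : ∀ b, ∑ l ∈ bl x K b, F l = ∑ l ∈ Ioc (x : ℤ) (2 * x), if l ∈ bl x K b then F l else 0 := by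
    intro b
    rw [← Finset.sum_filter]
    apply Finset.sum_congr _ fun _ _ => rfl
    ext l
    rw [mem_filter]
    constructor
    · intro h
      refine ⟨?_, h⟩
      unfold bl at h
      exact (mem_filter.mp h).1
    · exact fun h => h.2
  rw [Finset.sum_congr rfl fun b _ => h1 b, Finset.sum_comm]
  refine Finset.sum_congr rfl fun l hl => ?_
  obtain ⟨b, hb, hlb, hu⟩ := WND_blk x K hx hK l hl
  rw [Finset.sum_eq_single_of_mem b hb]
  · rw [if_pos hlb]
  · intro b' hb' hne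
    rw [if_neg fun h => hne (hu b' hb' h)]

theorem WND_tb (x A K b : ℕ) (hx : 1 ≤ x) (hA : 1 ≤ A) (_hAx : A ≤ x) (hK : 1 ≤ K) (l : ℤ) (hl : l ∈ bl x K b) :
    |A / (√8 * (l : ℝ)) - tb x A K b| ≤ (A : ℝ) / (x * K) ∧ 0 ≤ tb x A K b ∧ tb x A K b ≤ (A : ℝ) / x / 2 ∧
      0 ≤ A / (√8 * (l : ℝ)) ∧ A / (√8 * (l : ℝ)) ≤ (A : ℝ) / x / 2 := by
  unfold bl at hl
  rw [mem_filter, mem_Ioc] at hl
  obtain ⟨⟨h1, h2⟩, h3, h4⟩ := hl
  have hx0 : (0 : ℝ) < x := by exact_mod_cast hx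
  have hK0 : (0 : ℝ) < K := by exact_mod_cast hK
  have hA0 : (0 : ℝ) < A := by exact_mod_cast hA
  have hs : (2 : ℝ) ≤ √8 := by
    rw [show (2 : ℝ) = √4 by
      rw [show (4 : ℝ) = 2 ^ 2 by norm_num, Real.sqrt_sq (by norm_num)]]
    exact Real.sqrt_le_sqrt (by norm_num)
  have hl1 : (x : ℝ) < l := by exact_mod_cast h1
  have h3' : (b : ℝ) * x < K * (l - x) := by exact_mod_cast h3
  have h4' : (K : ℝ) * (l - x) ≤ (b + 1) * x := by exact_mod_cast h4
  set y : ℝ := x * (1 + (b : ℝ) / K) with hy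
  have hyx : (x : ℝ) ≤ y := by
    rw [hy]
    have : 0 ≤ (b : ℝ) / K := by positivity
    nlinarith
  have hy0 : 0 < y := lt_of_lt_of_le hx0 hyx
  have hKy : K * y = K * x + b * x := by
    rw [hy]
    field_simp
  have hly : y < l := by
    have : K * y < K * l := by
      rw [hKy]
      linarith
    exact lt_of_mul_lt_mul_left this hK0.le
  have hly2 : K * (l - y) ≤ x := by
    have : K * (l - y) = K * (l : ℝ) - K * y := by ring
    rw [this, hKy]
    linarith
  have hl0 : (0 : ℝ) < l := lt_trans hx0 hl1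
  have hs0 : (0 : ℝ) < √8 := by linarith
  have htb : tb x A K b = A / (√8 * y) := by
    unfold tb
    rw [hy]
  have hbd : ∀ w : ℝ, x ≤ w → A / (√8 * w) ≤ (A : ℝ) / x / 2 := by
    intro w hw
    rw [div_div]
    apply div_le_div_of_nonneg_left hA0.le
    · positivity
    · nlinarith
  refine ⟨?_, ?_, ?_, ?_, ?_⟩
  · rw [htb]
    have h5 : A / (√8 * (l : ℝ)) - A / (√8 * y) = - ((A / √8) * ((l - y) / (l * y))) := by
      field_simp
      ring
    have h6 : 0 ≤ (A / √8) * ((l - y) / (l * y)) := by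
      have : 0 ≤ (l : ℝ) - y := by linarith
      positivity
    rw [h5, abs_neg, abs_of_nonneg h6]
    have h7 : (A : ℝ) / √8 ≤ A := by
      rw [div_le_iff₀ hs0]
      nlinarith
    have h8 : ((l : ℝ) - y) / (l * y) ≤ 1 / (x * K) := by
      rw [div_le_div_iff₀ (by positivity) (by positivity)]
      calc ((l : ℝ) - y) * (x * K) = (K * (l - y)) * x := by ring
        _ ≤ x * x := mul_le_mul_of_nonneg_right hly2 hx0.le
        _ ≤ l * y := mul_le_mul hl1.le hyx hx0.le hl0.le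
        _ = 1 * (l * y) := by ring
    calc (A / √8) * (((l : ℝ) - y) / (l * y)) ≤ A * (1 / (x * K)) := by
          apply mul_le_mul h7 h8 _ hA0.le
          have : 0 ≤ (l : ℝ) - y := by linarith
          positivity
      _ = _ := by ring
  · rw [htb]; positivity
  · rw [htb]; exact hbd y hyx
  · positivity
  · exact hbd l hl1.le

theorem WND : WND_stmt := by
  refine ⟨fun h θ z hh k => WND_kk h θ z hh k, ?_, fun x K hx hK F => WND_sum x K hx hK F,
    fun x A K b hx hA hAx hK l hl => WND_tb x A K b hx hA hAx hK l hl⟩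
  intro h θ z z' hh
  have h1 := (WND_kk h θ z hh _).mp rfl
  have h2 := (WND_kk h θ z' hh _).mp rfl
  push_cast
  constructor
  · nlinarith [h1.1, h2.2]
  · nlinarith [h1.2, h2.1]

end Pool.Agent.EU
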